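import Mathlib

set_option autoImplicit false

namespace Pool.Agent.Lib.MP_795114_nt

open MvPolynomial

/-- `Lam q K n` is `Λ_n`: the `K`-span of the monomials `X_j ^ (q ^ i)`. -/
noncomputable def Lam (q : ℕ) (K : Type*) [Field K] (n : ℕ) :
    Submodule K (MvPolynomial (Fin n) K) :=
  Submodule.span K {f | ∃ (j : Fin n) (i : ℕ), f = X j ^ q ^ i}

/-- `V` is a `q`-variety: `V = Z(S)` for some `S ⊆ Λ_n`. -/
def IsQVariety (q : ℕ) {K : Type*} [Field K] {n : ℕ} (V : Set (Fin n → K)) : Prop :=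
  ∃ S : Set (MvPolynomial (Fin n) K), (∀ f ∈ S, f ∈ Lam q K n) ∧
    V = {x | ∀ f ∈ S, eval x f = 0}

/-- The linear part of `f` (coefficients of the `X_j`), evaluated at the vector `v`. -/
noncomputable def linPart {K : Type*} [Field K] {n : ℕ} (f : MvPolynomial (Fin n) K)
    (v : Fin n → K) : K :=
  ∑ j, coeff (Finsupp.single j 1) f * v j

/-- The tangent space `T(V)`: common zeros of the linear parts of all `f ∈ Λ_n` vanishing on `V`. -/
def tangentSpace (q : ℕ) {K : Type*} [Field K] {n : ℕ} (V : Set (Fin n → K)) : Set (Fin n → K) :=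
  {v | ∀ f ∈ Lam q K n, (∀ x ∈ V, eval x f = 0) → linPart f v = 0}

/-- The map `x ↦ (f_1(x), …, f_n(x))`. -/
noncomputable def polyMap {K : Type*} [Field K] {n : ℕ} (f : Fin n → MvPolynomial (Fin n) K)
    (x : Fin n → K) : Fin n → K :=
  fun i => eval x (f i)

/-- `(f_1, …, f_n)` with `f_i ∈ Λ_n` defines a morphism `F → F`. -/
def IsEndo (q : ℕ) {K : Type*} [Field K] {n : ℕ} (F : Set (Fin n → K))
    (f : Fin n → MvPolynomial (Fin n) K) : Prop :=
  (∀ i, f i ∈ Lam q K n) ∧ ∀ x ∈ F, polyMap f x ∈ F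

/-- `(F, Φ)` is an `A`-module in `K^n`, for `A = 𝔽[T]`, `q = |𝔽|` and structure map `δ : A → K`.
`Φ a` lists the components of the morphism `Φ_a : F → F`; the map `a ↦ Φ_a` is an `𝔽`-algebra
homomorphism `A → End(F)`, and `d(Φ_a) = δ(a) Id` on `T(F)`. -/
structure IsAModule {𝔽 K : Type*} [Field 𝔽] [Fintype 𝔽] [Field K] [Algebra 𝔽 K]
    (δ : Polynomial 𝔽 → K) {n : ℕ} (F : Set (Fin n → K))
    (Φ : Polynomial 𝔽 → Fin n → MvPolynomial (Fin n) K) : Prop where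
  isQVariety : IsQVariety (Fintype.card 𝔽) F
  isEndo : ∀ a, IsEndo (Fintype.card 𝔽) F (Φ a)
  map_add : ∀ a b, ∀ x ∈ F, polyMap (Φ (a + b)) x = polyMap (Φ a) x + polyMap (Φ b) x
  map_mul : ∀ a b, ∀ x ∈ F, polyMap (Φ (a * b)) x = polyMap (Φ a) (polyMap (Φ b) x)
  map_C : ∀ c : 𝔽, ∀ x ∈ F, polyMap (Φ (Polynomial.C c)) x = c • x
  differential : ∀ a, ∀ v ∈ tangentSpace (Fintype.card 𝔽) F, ∀ i, linPart (Φ a i) v = δ a * v i

/-- `Tor(F)`: the points of `F` killed by `Φ_a` for some `a ≠ 0`. -/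
def Tor {𝔽 K : Type*} [Field 𝔽] [Field K] {n : ℕ} (F : Set (Fin n → K))
    (Φ : Polynomial 𝔽 → Fin n → MvPolynomial (Fin n) K) : Set (Fin n → K) :=
  {x | x ∈ F ∧ ∃ a, a ≠ 0 ∧ polyMap (Φ a) x = 0}

/-- `B` has finite index in `C`: finitely many translates `r + B` cover `C`. -/
def FiniteIndexIn {V : Type*} [AddCommGroup V] (B C : Set V) : Prop :=
  ∃ R : Set V, R.Finite ∧ ∀ x ∈ C, ∃ r ∈ R, x - r ∈ B

end Pool.Agent.Lib.MP_795114_nt
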