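import Pool.Agent.Lib.MP_795114_nt.Defs

set_option autoImplicit false

namespace Pool.Agent.Lib.MP_795114_nt

open Polynomial

theorem aeval_intertwine {R M N : Type*} [CommRing R] [AddCommGroup M] [Module R M]
    [AddCommGroup N] [Module R N] (ι : N →ₗ[R] M) (L' : Module.End R N) (L : Module.End R M)
    (h : ∀ x, ι (L' x) = L (ι x)) (a : R[X]) (x : N) :
    ι (aeval L' a x) = aeval L a (ι x) := by
  induction a using Polynomial.induction_on generalizing x with
  | C c => simp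
  | add p q hp hq => simp [hp, hq]
  | monomial n c ih =>
    rw [pow_succ, ← mul_assoc, map_mul (aeval L') _ X, map_mul (aeval L) _ X, aeval_X, aeval_X,
      Module.End.mul_apply, Module.End.mul_apply, ih, h]

variable {𝔽 K : Type*} [Field 𝔽] [Fintype 𝔽] [Field K] [Algebra 𝔽 K]

noncomputable def tau (𝔽 K : Type*) [Field 𝔽] [Fintype 𝔽] [Field K] [Algebra 𝔽 K] :
    Module.End 𝔽 K := (FiniteField.frobeniusAlgHom 𝔽 K).toLinearMap

theorem tau_apply (x : K) : tau 𝔽 K x = x ^ Fintype.card 𝔽 := rfl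

noncomputable def car (𝔽 : Type*) {K : Type*} [Field 𝔽] [Fintype 𝔽] [Field K] [Algebra 𝔽 K]
    (c : K) : Module.End 𝔽 K := LinearMap.mulLeft 𝔽 c + tau 𝔽 K

theorem car_apply (c x : K) : car 𝔽 c x = c * x + x ^ Fintype.card 𝔽 := rfl

theorem add_pow_q {R : Type*} [CommRing R] [Algebra 𝔽 R] (x y : R) :
    (x + y) ^ Fintype.card 𝔽 = x ^ Fintype.card 𝔽 + y ^ Fintype.card 𝔽 :=
  map_add (FiniteField.frobeniusAlgHom 𝔽 R) x y

theorem tau_car (θ x : K) :
    tau 𝔽 K (car 𝔽 θ x) = car 𝔽 (θ ^ Fintype.card 𝔽) (tau 𝔽 K x) := by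
  simp only [tau_apply, car_apply, add_pow_q, mul_pow]

noncomputable def QP1 (q : ℕ) (K : Type*) [Field K] : Submodule K K[X] :=
  Submodule.span K {g | ∃ i : ℕ, g = X ^ q ^ (i + 1)}

theorem pow_mem_QP1 {g : K[X]} (hg : g ∈ QP1 (Fintype.card 𝔽) K) :
    g ^ Fintype.card 𝔽 ∈ QP1 (Fintype.card 𝔽) K := by
  induction hg using Submodule.span_induction with
  | mem x hx =>
    obtain ⟨i, rfl⟩ := hx
    refine Submodule.subset_span ⟨i + 1, ?_⟩
    rw [← pow_mul, ← pow_succ]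
  | zero => rw [zero_pow Fintype.card_pos.ne']; exact Submodule.zero_mem _
  | add x y _ _ hx hy => rw [add_pow_q]; exact Submodule.add_mem _ hx hy
  | smul a x _ hx => rw [_root_.smul_pow]; exact Submodule.smul_mem _ _ hx

theorem coeff_one_QP1 {q : ℕ} (hq : 1 < q) {g : K[X]} (hg : g ∈ QP1 q K) : g.coeff 1 = 0 := by
  induction hg using Submodule.span_induction with
  | mem x hx =>
    obtain ⟨i, rfl⟩ := hx
    have : 1 < q ^ (i + 1) := Nat.one_lt_pow (by omega) hq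
    rw [coeff_X_pow, if_neg (by omega)]
  | zero => simp
  | add x y _ _ hx hy => simp [hx, hy]
  | smul a x _ hx => simp [hx]

def Rep (q : ℕ) (L : K → K) (c : K) : Prop :=
  ∃ g ∈ QP1 q K, ∀ x, L x = c * x + g.eval x

theorem rep_aeval (c : K) (a : 𝔽[X]) :
    Rep (Fintype.card 𝔽) (aeval (car 𝔽 c) a) (aeval c a) := by
  induction a using Polynomial.induction_on with
  | C k => exact ⟨0, Submodule.zero_mem _, fun x => by simp [Algebra.smul_def]⟩
  | add p q hp hq =>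
    obtain ⟨g, hg, h1⟩ := hp
    obtain ⟨g', hg', h2⟩ := hq
    refine ⟨g + g', Submodule.add_mem _ hg hg', fun x => ?_⟩
    rw [map_add, LinearMap.add_apply, h1, h2, map_add, eval_add]; ring
  | monomial n k ih =>
    obtain ⟨g, hg, h1⟩ := ih
    have e : (C k * X ^ (n + 1) : 𝔽[X]) = X * (C k * X ^ n) := by ring
    set c' := aeval c (C k * X ^ n : 𝔽[X]) with hc'
    refine ⟨c • g + (c' ^ Fintype.card 𝔽) • X ^ (Fintype.card 𝔽) ^ (0 + 1) + g ^ Fintype.card 𝔽,
      Submodule.add_mem _ (Submodule.add_mem _ (Submodule.smul_mem _ _ hg)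
        (Submodule.smul_mem _ _ (Submodule.subset_span ⟨0, rfl⟩))) (pow_mem_QP1 hg), fun x => ?_⟩
    rw [e, map_mul (aeval (car 𝔽 c)), map_mul (aeval c), aeval_X, aeval_X, Module.End.mul_apply,
      h1, car_apply, add_pow_q, ← hc']
    simp only [eval_add, eval_smul, eval_pow, eval_X, smul_eq_mul, zero_add, pow_one, mul_pow]
    ring

theorem Rep.finite_ker {q : ℕ} (hq : 1 < q) {L : K → K} {c : K} (h : Rep q L c) (hc : c ≠ 0) :
    {x | L x = 0}.Finite := by
  obtain ⟨g, hg, h1⟩ := h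
  have hne : (C c * X + g : K[X]) ≠ 0 := by
    intro h0
    have := congrArg (fun p => p.coeff 1) h0
    simp [coeff_one_QP1 hq hg] at this
    exact hc this
  refine (Polynomial.finite_setOfPred_isRoot hne).subset fun x hx => ?_
  simp only [Set.mem_ofPred_eq] at hx ⊢
  rw [h1] at hx
  simpa [IsRoot] using hx

theorem toMv_mem {q n : ℕ} (hq : 1 < q) (j : Fin n) {g : K[X]} (hg : g ∈ QP1 q K) :
    g.toMvPolynomial j ∈ Lam q K n ∧
      ∀ k : Fin n, MvPolynomial.coeff (Finsupp.single k 1) (g.toMvPolynomial j) = 0 := by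
  induction hg using Submodule.span_induction with
  | mem x hx =>
    obtain ⟨i, rfl⟩ := hx
    have h1 : 1 < q ^ (i + 1) := Nat.one_lt_pow (by omega) hq
    rw [map_pow, toMvPolynomial_X]
    refine ⟨Submodule.subset_span ⟨j, i + 1, rfl⟩, fun k => ?_⟩
    rw [MvPolynomial.coeff_X_pow, if_neg]
    intro h
    have := congrArg (fun f => f j) h
    simp only [Finsupp.single_eq_same, Finsupp.single_apply] at this
    split_ifs at this <;> omega
  | zero => simp
  | add x y _ _ hx hy =>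
    rw [map_add]
    exact ⟨Submodule.add_mem _ hx.1 hy.1, fun k => by simp [hx.2 k, hy.2 k]⟩
  | smul a x _ hx =>
    rw [map_smul]
    exact ⟨Submodule.smul_mem _ _ hx.1, fun k => by simp [hx.2 k]⟩

theorem Rep.exists_mv {q n : ℕ} (hq : 1 < q) {L : K → K} {c : K} (h : Rep q L c) (j : Fin n) :
    ∃ f ∈ Lam q K n, (∀ x : Fin n → K, L (x j) = MvPolynomial.eval x f) ∧
      ∀ v : Fin n → K, linPart f v = c * v j := by
  obtain ⟨g, hg, h1⟩ := h
  obtain ⟨h2, h3⟩ := toMv_mem hq j hg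
  refine ⟨c • MvPolynomial.X j + g.toMvPolynomial j, ?_, fun x => ?_, fun v => ?_⟩
  · refine Submodule.add_mem _ (Submodule.smul_mem _ _ (Submodule.subset_span ⟨j, 0, ?_⟩)) h2
    simp
  · rw [h1]; simp [MvPolynomial.smul_eval]
  · unfold linPart
    rw [Finset.sum_eq_single j]
    · simp [h3, MvPolynomial.coeff_X]
    · intro k _ hk
      have : Finsupp.single j 1 ≠ Finsupp.single k 1 := by
        intro h
        exact hk ((Finsupp.single_left_inj one_ne_zero).1 h).symm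
      simp [h3, MvPolynomial.coeff_X, this]
    · simp

theorem linPart_sub {n : ℕ} (f g : MvPolynomial (Fin n) K) (v : Fin n → K) :
    linPart (f - g) v = linPart f v - linPart g v := by
  simp [linPart, sub_mul, Finset.sum_sub_distrib]

theorem car_surj [IsAlgClosed K] (θ c : K) : ∃ y, car 𝔽 θ y = c := by
  have hq : 1 < Fintype.card 𝔽 := Fintype.one_lt_card
  have hdeg : (X ^ Fintype.card 𝔽 + (C θ * X - C c) : K[X]).degree ≠ 0 := by
    rw [degree_add_eq_left_of_degree_lt]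
    · rw [degree_X_pow]; exact_mod_cast (by omega)
    · rw [degree_X_pow]
      refine lt_of_le_of_lt (b := 1) ?_ (by exact_mod_cast hq)
      compute_degree!
  obtain ⟨y, hy⟩ := IsAlgClosed.exists_root _ hdeg
  refine ⟨y, ?_⟩
  simp only [IsRoot, eval_add, eval_pow, eval_X, eval_sub, eval_mul, eval_C] at hy
  rw [car_apply]; linear_combination hy

theorem car_ker [IsAlgClosed K] {θ : K} (hθ : θ ≠ 0) : ∃ y, y ≠ 0 ∧ car 𝔽 θ y = 0 := by
  have hq : 1 < Fintype.card 𝔽 := Fintype.one_lt_card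
  obtain ⟨y, hy⟩ := IsAlgClosed.exists_pow_nat_eq (-θ) (n := Fintype.card 𝔽 - 1) (by omega)
  refine ⟨y, ?_, ?_⟩
  · rintro rfl
    rw [zero_pow (by omega)] at hy
    exact hθ (neg_eq_zero.1 hy.symm)
  · have : y ^ Fintype.card 𝔽 = y ^ (Fintype.card 𝔽 - 1) * y := by
      rw [← pow_succ]; congr 1; omega
    rw [car_apply, this, hy]; ring

theorem car_tor_infinite [IsAlgClosed K] {θ : K} (hθ : θ ≠ 0) :
    {y : K | ∃ k : ℕ, (car 𝔽 θ ^ k) y = 0}.Infinite := by
  obtain ⟨y0, hy0, h0⟩ := car_ker (𝔽 := 𝔽) hθ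
  choose s hs using fun c => car_surj (𝔽 := 𝔽) θ c
  have key : ∀ k : ℕ, (car 𝔽 θ ^ k) (s^[k] y0) = y0 := by
    intro k
    induction k with
    | zero => simp
    | succ k ih => rw [pow_succ, Module.End.mul_apply, Function.iterate_succ_apply', hs, ih]
  have key2 : ∀ k m : ℕ, k < m → (car 𝔽 θ ^ m) (s^[k] y0) = 0 := by
    intro k m hkm
    obtain ⟨d, rfl⟩ := Nat.exists_eq_add_of_lt hkm
    have : k + d + 1 = d + 1 + k := by omega
    rw [this, pow_add, pow_succ, Module.End.mul_apply, Module.End.mul_apply, key, h0, map_zero]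
  refine Set.infinite_of_injective_forall_mem (f := fun k : ℕ => s^[k] y0) ?_ ?_
  · intro a b hab
    by_contra hne
    rcases lt_or_gt_of_ne hne with h | h
    · have := key2 a b h
      simp only at hab
      rw [hab, key] at this
      exact hy0 this
    · have := key2 b a h
      simp only at hab
      rw [← hab, key] at this
      exact hy0 this
  · intro k
    exact ⟨k + 1, key2 k (k + 1) (Nat.lt_succ_self k)⟩

noncomputable def comps (𝔽 : Type*) {K : Type*} [Field 𝔽] [Fintype 𝔽] [Field K] [Algebra 𝔽 K]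
    (θ : K) : Fin 2 → Module.End 𝔽 K :=
  ![car 𝔽 (θ ^ Fintype.card 𝔽), car 𝔽 θ ^ Fintype.card 𝔽]

theorem rep_comps (θ : K) (a : 𝔽[X]) (i : Fin 2) :
    Rep (Fintype.card 𝔽) (aeval (comps 𝔽 θ i) a) (aeval (θ ^ Fintype.card 𝔽) a) := by
  fin_cases i
  · exact rep_aeval _ a
  · have := rep_aeval θ (expand 𝔽 (Fintype.card 𝔽) a)
    rw [expand_aeval, expand_aeval] at this
    exact this

theorem exists_phi (θ : K) :
    ∃ Φ : 𝔽[X] → Fin 2 → MvPolynomial (Fin 2) K,
      (∀ a i, Φ a i ∈ Lam (Fintype.card 𝔽) K 2) ∧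
      (∀ a x i, polyMap (Φ a) x i = aeval (comps 𝔽 θ i) a (x i)) ∧
      ∀ a (v : Fin 2 → K) i, linPart (Φ a i) v = aeval (θ ^ Fintype.card 𝔽) a * v i := by
  choose f h1 h2 h3 using fun (a : 𝔽[X]) i => (rep_comps θ a i).exists_mv Fintype.one_lt_card i
  exact ⟨f, h1, fun a x i => (h2 a i x).symm, fun a v i => h3 a i v⟩

theorem exH_isQVariety (q : ℕ) : IsQVariety q {x : Fin 2 → K | x 0 = x 1 ^ q} := by
  refine ⟨{MvPolynomial.X 0 - MvPolynomial.X 1 ^ q}, ?_, ?_⟩
  · rintro f rfl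
    exact Submodule.sub_mem _ (Submodule.subset_span ⟨0, 0, by simp⟩)
      (Submodule.subset_span ⟨1, 1, by simp⟩)
  · ext x
    simp only [Set.mem_singleton_iff, forall_eq,
      Set.mem_ofPred_eq, map_sub, map_pow, MvPolynomial.eval_X, sub_eq_zero]

theorem pow_car_frob (θ y : K) (k : ℕ) :
    ((car 𝔽 θ ^ k) y) ^ Fintype.card 𝔽 =
      (car 𝔽 (θ ^ Fintype.card 𝔽) ^ k) (y ^ Fintype.card 𝔽) := by
  have := aeval_intertwine (tau 𝔽 K) (car 𝔽 θ) (car 𝔽 (θ ^ Fintype.card 𝔽)) (tau_car θ) (X ^ k) y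
  simpa only [map_pow, aeval_X, tau_apply] using this

theorem stable_finite (δ : 𝔽[X] →ₐ[𝔽] K) (hδ : Function.Injective δ) (θ : K)
    (hθ : θ ^ Fintype.card 𝔽 = δ X) (G : Set (Fin 2 → K))
    (hG : ∀ x ∈ G, (fun i => comps 𝔽 θ i (x i)) ∈ G)
    (hH : ∀ x ∈ G, x 0 = x 1 ^ Fintype.card 𝔽) : G.Finite := by
  have hq : 1 < Fintype.card 𝔽 := Fintype.one_lt_card
  have hne : aeval (θ ^ Fintype.card 𝔽) (X ^ Fintype.card 𝔽 - X : 𝔽[X]) ≠ 0 := by
    rw [hθ, aeval_algHom_apply, aeval_X_left_apply]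
    intro h
    exact FiniteField.X_pow_card_sub_X_ne_zero 𝔽 hq (hδ (by rw [h, map_zero]))
  have hfin := (rep_aeval (θ ^ Fintype.card 𝔽) (X ^ Fintype.card 𝔽 - X : 𝔽[X])).finite_ker hq hne
  refine Set.Finite.of_finite_image (f := fun x => x 0) (hfin.subset ?_) ?_
  · rintro _ ⟨x, hx, rfl⟩
    have h1 := hH x hx
    have h2 := hH _ (hG x hx)
    simp only [comps, Matrix.cons_val_zero, Matrix.cons_val_one] at h2
    rw [pow_car_frob, ← h1] at h2
    simp only [Set.mem_ofPred_eq, map_sub, map_pow, aeval_X, LinearMap.sub_apply]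
    rw [← h2, sub_self]
  · intro x hx y hy hxy
    have h1 := hH x hx
    have h2 := hH y hy
    simp only at hxy
    have h3 : x 1 = y 1 := by
      apply (FiniteField.frobeniusAlgHom 𝔽 K).injective
      exact h1.symm.trans (hxy.trans h2)
    ext i
    fin_cases i
    · exact hxy
    · exact h3

theorem tor_infinite [IsAlgClosed K] (δ : 𝔽[X] →ₐ[𝔽] K) (hδ : Function.Injective δ) (θ : K)
    (hθ : θ ^ Fintype.card 𝔽 = δ X) (Φ : 𝔽[X] → Fin 2 → MvPolynomial (Fin 2) K)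
    (hΦ : ∀ a x i, polyMap (Φ a) x i = aeval (comps 𝔽 θ i) a (x i)) :
    ({x : Fin 2 → K | x 0 = x 1 ^ Fintype.card 𝔽} ∩ Tor Set.univ Φ).Infinite := by
  have hq : 1 < Fintype.card 𝔽 := Fintype.one_lt_card
  have hθ0 : θ ≠ 0 := by
    rintro rfl
    rw [zero_pow (by omega)] at hθ
    exact X_ne_zero (hδ (by rw [← hθ, map_zero]))
  refine Set.Infinite.of_image (fun x : Fin 2 → K => x 1)
    ((car_tor_infinite (𝔽 := 𝔽) hθ0).mono ?_)
  rintro y ⟨k, hk⟩
  refine ⟨![y ^ Fintype.card 𝔽, y], ⟨rfl, Set.mem_univ _,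
    X ^ k, pow_ne_zero _ X_ne_zero, ?_⟩, rfl⟩
  ext i
  rw [hΦ, map_pow, aeval_X]
  fin_cases i
  · simp only [comps, Fin.zero_eta, Matrix.cons_val_zero, Pi.zero_apply]
    rw [← pow_car_frob, hk, zero_pow (by omega)]
  · simp only [comps, Fin.mk_one, Matrix.cons_val_one, Matrix.cons_val_zero, Pi.zero_apply]
    have : Fintype.card 𝔽 * k = (Fintype.card 𝔽 - 1) * k + k := by
      rw [← Nat.succ_mul]; congr 1; omega
    rw [← pow_mul, this, pow_add, Module.End.mul_apply, hk, map_zero]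

theorem not_finiteIndexIn {V : Type*} [AddCommGroup V] {B C : Set V}
    (hB : B.Finite) (hC : C.Infinite) : ¬ FiniteIndexIn B C := by
  rintro ⟨R, hR, h⟩
  refine hC ((hR.image2 (fun r b => r + b) hB).subset fun x hx => ?_)
  obtain ⟨r, hr, hb⟩ := h x hx
  exact ⟨r, hr, x - r, hb, by simp⟩

theorem main [IsAlgClosed K] (δ : 𝔽[X] →ₐ[𝔽] K) (hδ : Function.Injective δ) :
    ∃ (n : ℕ) (F : Set (Fin n → K)) (Φ : 𝔽[X] → Fin n → MvPolynomial (Fin n) K)
      (H : Set (Fin n → K)), IsAModule δ F Φ ∧ IsQVariety (Fintype.card 𝔽) H ∧ H ⊆ F ∧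
      ∀ G : Set (Fin n → K), (∀ a, ∀ x ∈ G, polyMap (Φ a) x ∈ G) → G ⊆ H →
        ¬ FiniteIndexIn (G ∩ Tor F Φ) (H ∩ Tor F Φ) := by
  obtain ⟨θ, hθ⟩ := IsAlgClosed.exists_pow_nat_eq (δ X) (n := Fintype.card 𝔽) Fintype.card_pos
  obtain ⟨Φ, h1, h2, h3⟩ := exists_phi (𝔽 := 𝔽) θ
  refine ⟨2, Set.univ, Φ, {x | x 0 = x 1 ^ Fintype.card 𝔽}, ?_, exH_isQVariety _,
    Set.subset_univ _, fun G hG hGH => ?_⟩
  · refine ⟨⟨∅, by simp, by simp⟩, fun a => ⟨h1 a, fun _ _ => Set.mem_univ _⟩, ?_, ?_, ?_, ?_⟩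
    · intro a b x _
      ext i
      simp [h2]
    · intro a b x _
      ext i
      simp [h2]
    · intro c x _
      ext i
      simp [h2]
    · intro a v _ i
      rw [h3, hθ, aeval_algHom_apply, aeval_X_left_apply]
  · refine not_finiteIndexIn (Set.Finite.inter_of_left ?_ _) (tor_infinite δ hδ θ hθ Φ h2)
    refine stable_finite δ hδ θ hθ G (fun x hx => ?_) hGH
    have := hG X x hx
    convert this using 1
    ext i
    rw [h2, aeval_X]

end Pool.Agent.Lib.MP_795114_nt
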